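import Pool.Agent.Lib.MP_e2dbb5_co.TSMain
import Pool.Agent.Lib.MP_e2dbb5_co.T1

/-!
# Claw-free graphs of toughness more than 2 with few bad spots are hamiltonian
-/

set_option autoImplicit false

open Finset

noncomputable section

namespace Pool.Agent.Results.MP_e2dbb5_co.FewBadSpots

open Classical Pool.Agent.ClawHam

/-- **A claw-free graph of toughness more than 2, or just one in which every vertex cut has at
least five vertices, is hamiltonian if it has at most six bad spots.** -/
theorem result (V : Type) [Fintype V] [DecidableEq V] (G : SimpleGraph V)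
    (h3 : 3 ≤ Fintype.card V) (hclaw : ClawFree G)
    (hcut : (∃ t : ℝ, 2 < t ∧ Tough t G) ∨ NoSmallCut G)
    (hfew : {Q : Finset V | TS.BadSpot G Q}.ncard ≤ 6) : G.IsHamiltonian := by
  have hN : NoSmallCut G := by
    rcases hcut with ⟨t, ht, htough⟩ | h
    · exact rowt1 V G t ht htough
    · exact h
  refine TS.mainTS6 V G hN h3 hclaw ?_
  have h7 : {Q : Finset V | TS.BadSpot G Q} =
      ((univ.filter fun Q : Finset V => TS.BadSpot G Q : Finset (Finset V)) :
        Set (Finset V)) := by
    ext Q
    simp
  rw [h7, Set.ncard_coe_finset] at hfew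
  exact hfew

end Pool.Agent.Results.MP_e2dbb5_co.FewBadSpots
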