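import Pool.Agent.Lib.MP_e2dbb5_co.T1
import Pool.Agent.Lib.MP_e2dbb5_co.SPTMain
import Pool.Agent.Lib.MP_e2dbb5_co.SP_Split16
import Pool.Agent.Lib.MP_e2dbb5_co.GElim
import Pool.Agent.Lib.MP_e2dbb5_co.GMono

/-!
# Claw-free graphs of toughness more than 2: triangles and components
-/

set_option autoImplicit false

noncomputable section

namespace Pool.Agent.Results.MP_e2dbb5_co.TrianglesComponents

open Pool.Agent.ClawHam

/-- **A claw-free graph of toughness more than 2, or just one in which every vertex cut has at
least five vertices, is hamiltonian if `Cost G A` is at most five for some set `A` of components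
of `L2 G`: the number of the triangles which have no edge in common with another triangle and
contain a special vertex of a component in `A`, plus, for every component `c` which is not in `A`,
half (rounded down) of the sum over the cliques `Q` with four vertices of the minimum of 2 and the
number of the special vertices of `c` in `Q`.** -/
theorem result (V : Type) [Fintype V] [DecidableEq V] (G : SimpleGraph V)
    (h3 : 3 ≤ Fintype.card V) (hclaw : ClawFree G)
    (hcut : (∃ t : ℝ, 2 < t ∧ Tough t G) ∨ NoSmallCut G)
    (A : Set (L2 G).ConnectedComponent) (hcost : SPT.Cost G A ≤ 5) :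
    G.IsHamiltonian := by
  have hN : NoSmallCut G := by
    rcases hcut with ⟨t, ht, htough⟩ | h
    · exact rowt1 V G t ht htough
    · exact h
  exact SPT.mainCost SP.rowSplit16 ClawHam.G.rowElimD ClawHam.G.rowElimE rowMono V G hN h3 hclaw A
    hcost

end Pool.Agent.Results.MP_e2dbb5_co.TrianglesComponents
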